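import Mathlib

set_option autoImplicit false

namespace Pool.Agent.X59.DW

open MeasureTheory Set Filter Topology

universe v

theorem t_SA' (H : Type v) [NormedAddCommGroup H] [InnerProductSpace ℝ H] [CompleteSpace H]
    (A : H →ₗ.[ℝ] H) (b : ℝ) (hb : 0 < b) (hd : Dense (A.domain : Set H)) (hA : A.adjoint = A)
    (hco : ∀ x : A.domain, b * ‖(x : H)‖ ^ 2 ≤ inner ℝ (A x) (x : H)) :
    ∃ T : H →L[ℝ] H, (∀ x, T x ∈ A.domain) ∧
      (∀ (x : H) (h : T x ∈ A.domain), A ⟨T x, h⟩ = x) ∧ (∀ v : A.domain, T (A v) = (v : H)) ∧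
      (∀ x y : H, inner ℝ (T x) y = inner ℝ x (T y)) ∧
      (∀ x : H, b * ‖T x‖ ^ 2 ≤ inner ℝ (T x) x) ∧ DenseRange T := by
  have hnorm : ∀ x : A.domain, b * ‖(x : H)‖ ≤ ‖A x‖ := by
    intro x
    by_cases h0 : ‖(x : H)‖ = 0
    · rw [h0, mul_zero]
      exact norm_nonneg _
    · have h1 : 0 < ‖(x : H)‖ := lt_of_le_of_ne (norm_nonneg _) (Ne.symm h0)
      have h2 := (hco x).trans (real_inner_le_norm _ _)
      nlinarith
  have hinj : Function.Injective A.toFun := by
    intro x y hxy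
    have h1 : A (x - y) = 0 := by
      rw [LinearPMap.map_sub]
      exact sub_eq_zero.2 hxy
    have h2 := hnorm (x - y)
    rw [h1, norm_zero] at h2
    have h3 : ‖((x - y : A.domain) : H)‖ ≤ 0 := by
      by_contra h
      push Not at h
      nlinarith
    have h4 : ((x - y : A.domain) : H) = 0 := norm_le_zero_iff.1 h3
    exact sub_eq_zero.1 (Subtype.ext h4)
  have key : ∀ x y : H, (∀ v : A.domain, inner ℝ y (v : H) = inner ℝ x (A v)) →
      ∃ h : x ∈ A.domain, A ⟨x, h⟩ = y := by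
    intro x y h
    have h1 : x ∈ A.adjoint.domain := LinearPMap.mem_adjoint_domain_of_exists x ⟨y, h⟩
    have h2 : A.adjoint ⟨x, h1⟩ = y := LinearPMap.adjoint_apply_eq hd ⟨x, h1⟩ h
    have h3 : ∃ h : x ∈ A.adjoint.domain, A.adjoint ⟨x, h⟩ = y := ⟨h1, h2⟩
    rw [hA] at h3
    exact h3
  have hsymm : ∀ u w : A.domain, inner ℝ (A u) (w : H) = inner ℝ (u : H) (A w) := by
    have h := LinearPMap.adjoint_isFormalAdjoint hd
    rw [hA] at h
    intro u w
    exact h u w
  have hsurj : Function.Surjective A.toFun := by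
    intro y
    set e := LinearEquiv.ofInjective A.toFun hinj with he
    set l : LinearMap.range A.toFun →ₗ[ℝ] ℝ :=
      (innerₗ H y) ∘ₗ A.domain.subtype ∘ₗ (e.symm : LinearMap.range A.toFun →ₗ[ℝ] A.domain) with hl
    have hlb : ∀ z, ‖l z‖ ≤ (‖y‖ / b) * ‖z‖ := by
      intro z
      obtain ⟨w, rfl⟩ := e.surjective z
      have h1 : l (e w) = inner ℝ y (w : H) := by
        simp [hl]
      have h2 : ‖e w‖ = ‖A w‖ := rfl
      rw [h1, h2]
      calc ‖inner ℝ y (w : H)‖ ≤ ‖y‖ * ‖(w : H)‖ := norm_inner_le_norm _ _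
        _ = ‖y‖ / b * (b * ‖(w : H)‖) := by field_simp
        _ ≤ ‖y‖ / b * ‖A w‖ := mul_le_mul_of_nonneg_left (hnorm w) (by positivity)
    obtain ⟨g, hg, -⟩ := exists_extension_norm_eq _ (l.mkContinuous _ hlb)
    obtain ⟨h, hx⟩ := key ((InnerProductSpace.toDual ℝ H).symm g) y (by
      intro v
      rw [InnerProductSpace.toDual_symm_apply]
      have h1 := hg (e v)
      have h2 : ((e v : LinearMap.range A.toFun) : H) = A v := rfl
      rw [h2] at h1
      rw [h1]
      show inner ℝ y (v : H) = l (e v)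
      simp [hl])
    exact ⟨_, hx⟩
  set e := LinearEquiv.ofBijective A.toFun ⟨hinj, hsurj⟩ with he
  have hright : ∀ x, A (e.symm x) = x := fun x => e.apply_symm_apply x
  have hleft : ∀ v : A.domain, e.symm (A v) = v := fun v => e.symm_apply_apply v
  have hb' : ∀ x : H, ‖(A.domain.subtype ∘ₗ (e.symm : H →ₗ[ℝ] A.domain)) x‖ ≤ (1 / b) * ‖x‖ := by
    intro x
    have h1 := hnorm (e.symm x)
    rw [hright] at h1
    show ‖((e.symm x : A.domain) : H)‖ ≤ (1 / b) * ‖x‖
    rw [div_mul_eq_mul_div, one_mul, le_div_iff₀ hb]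
    linarith
  set T : H →L[ℝ] H := (A.domain.subtype ∘ₗ (e.symm : H →ₗ[ℝ] A.domain)).mkContinuous _ hb' with hT
  have hTx : ∀ x, T x = ((e.symm x : A.domain) : H) := fun x => rfl
  refine ⟨T, fun x => ?_, fun x h => ?_, fun v => ?_, fun x y => ?_, fun x => ?_, ?_⟩
  · rw [hTx]
    exact (e.symm x).2
  · have : (⟨T x, h⟩ : A.domain) = e.symm x := Subtype.ext (hTx x)
    rw [this]
    exact hright x
  · rw [hTx, hleft]
  · have h1 := hsymm (e.symm x) (e.symm y)
    rw [hright, hright] at h1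
    rw [hTx, hTx]
    exact h1.symm
  · have h1 := hco (e.symm x)
    rw [hright] at h1
    rw [hTx, real_inner_comm]
    exact h1
  · intro z
    refine closure_mono ?_ (hd z)
    intro v hv
    refine ⟨A ⟨v, hv⟩, ?_⟩
    rw [hTx, hleft]

end Pool.Agent.X59.DW
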