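import Pool.Agent.X238.DW.Stm3
import Pool.Agent.X59.DW.SA

set_option autoImplicit false

namespace Pool.Agent.X59.DW

universe v

theorem t_SA : Pool.Agent.X238.DW.S_SA.{v} := by
  intro H _ _ _ A b hb hd hA hco
  obtain ⟨T, h1, h2, h3, h4, h5, h6⟩ := t_SA' H A b hb hd hA hco
  exact ⟨T, ⟨h1, h2, h3, h4, h5, h6⟩⟩

end Pool.Agent.X59.DW
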